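import Pool.Agent.Lib.MP_f4742e_al.X.Split

/-!
The transposition as an involution, and the isotropic families for the dot product.
-/

set_option autoImplicit false

namespace Pool.Agent.MP_f4742e_al

open Matrix

variable (n : ℕ) (F : Type*) [Field F]

/-- The transposition. -/
def trI : Involution F (Matrix (Fin n) (Fin n) F) where
  f :=
    { toFun := fun x => xᵀ
      map_add' := fun x y => transpose_add x y
      map_smul' := fun c x => transpose_smul c x }
  map_mul := fun x y => transpose_mul x y
  invol := fun x => transpose_transpose x

theorem trI_f (x : Matrix (Fin n) (Fin n) F) : (trI n F).f x = xᵀ := rfl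

/-- `w` is the largest size of a linearly independent totally isotropic family in `F^n`. -/
def IsoMax (w : ℕ) : Prop :=
  IsGreatest {m : ℕ | ∃ v : Fin m → (Fin n → F), LinearIndependent F v ∧
    ∀ i j, v i ⬝ᵥ v j = 0} w

end Pool.Agent.MP_f4742e_al
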