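import Pool.Agent.Lib.MP_f4742e_al.Y.Base
import Pool.Agent.Lib.MP_f4742e_al.Defs

/-!
The symmetric matrices as `H(A, *)` and as a subalgebra of Mathlib's `SymAlg`.
-/

set_option autoImplicit false

namespace Pool.Agent.MP_f4742e_al

open Matrix SymAlg

/-- The RB-index is invariant under isomorphisms. -/
theorem rb_equiv {F A B : Type*} [Field F] [NonUnitalNonAssocRing A] [Module F A]
    [NonUnitalNonAssocRing B] [Module F B] (e : A ≃ₗ[F] B) (hm : ∀ x y, e (x * y) = e x * e y)
    {r : ℕ} (h : HasRBIndex F B r) : HasRBIndex F A r := by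
  have key : ∀ R : B →ₗ[F] B, IsRotaBaxter R → IsRotaBaxter (e.symm.conj R) := by
    intro R hR x y
    apply e.injective
    simp only [LinearEquiv.conj_apply, LinearEquiv.symm_symm, LinearMap.comp_apply,
      LinearEquiv.coe_coe, hm, LinearEquiv.apply_symm_apply, map_add]
    rw [← map_add]
    exact hR _ _
  have key2 : ∀ R : A →ₗ[F] A, IsRotaBaxter R → IsRotaBaxter (e.conj R) := by
    intro R hR x y
    obtain ⟨x, rfl⟩ := e.surjective x
    obtain ⟨y, rfl⟩ := e.surjective y
    simp only [LinearEquiv.conj_apply, LinearMap.comp_apply, LinearEquiv.coe_coe,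
      LinearEquiv.symm_apply_apply, ← hm, ← map_add, hR x y]
  refine ⟨?_, ?_⟩
  · intro R hR
    have h1 := h.1 _ (key2 R hR)
    have h2 : e.conj (R ^ r) = (e.conj R) ^ r := map_pow e.conjRingEquiv R r
    rw [h1] at h2
    exact e.conj.injective (h2.trans (map_zero _).symm)
  · intro N hN
    refine h.2 fun R hR => ?_
    have h1 := hN _ (key R hR)
    have h2 : e.symm.conj (R ^ N) = (e.symm.conj R) ^ N := map_pow e.symm.conjRingEquiv R N
    rw [h1] at h2
    exact e.symm.conj.injective (h2.trans (map_zero _).symm)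

variable (n : ℕ) (F : Type*) [Field F] [CharZero F]

/-- The symmetric matrices in the two languages. -/
def brH : HSym n F ≃ₗ[F] (trI n F).H where
  toFun u := ⟨unsym u.1, u.2⟩
  map_add' _ _ := rfl
  map_smul' _ _ := rfl
  invFun x := ⟨sym x.1, x.2⟩
  left_inv _ := rfl
  right_inv _ := rfl

theorem brH_mul (u v : HSym n F) : brH n F (u * v) = brH n F u * brH n F v := by
  apply Subtype.ext
  rw [Involution.coe_mul]
  exact unsym_mul_eq u.1 v.1

variable {n F}

theorem rb_HSym_of {r : ℕ} (h : HasRBIndex F (trI n F).H r) : HasRBIndex F (HSym n F) r :=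
  rb_equiv (brH n F) (brH_mul n F) h

theorem rb_trI_of {r : ℕ} (h : HasRBIndex F (HSym n F) r) : HasRBIndex F (trI n F).H r := by
  refine rb_equiv (brH n F).symm (fun x y => ?_) h
  apply (brH n F).injective
  rw [brH_mul, LinearEquiv.apply_symm_apply, LinearEquiv.apply_symm_apply,
    LinearEquiv.apply_symm_apply]

end Pool.Agent.MP_f4742e_al
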