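import Pool.Agent.Lib.MP_f4742e_al.Y.Base

/-!
The Witt index of a sum of squares if `-1` is a square.
-/

set_option autoImplicit false
set_option linter.unusedSimpArgs false

namespace Pool.Agent.MP_f4742e_al

open Matrix

variable {F : Type*} [Field F] {n : ℕ}

theorem isoMax_half {i : F} (hi : i * i = -1) {w : ℕ} (hw : IsoMax n F w) : w = n / 2 := by
  apply le_antisymm
  · obtain ⟨v, hv, h0⟩ := hw.1
    have h1 := iso_card hv h0
    omega
  · refine hw.2 ?_
    have ha : ∀ k : Fin (n / 2), 2 * (k : ℕ) < n := fun k => by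
      have := k.2
      omega
    have hb : ∀ k : Fin (n / 2), 2 * (k : ℕ) + 1 < n := fun k => by
      have := k.2
      omega
    refine ⟨fun k => Pi.single ⟨2 * (k : ℕ), ha k⟩ 1 + Pi.single ⟨2 * (k : ℕ) + 1, hb k⟩ i, ?_, ?_⟩
    · rw [Fintype.linearIndependent_iff]
      intro g hg k
      have h1 := congrFun hg ⟨2 * (k : ℕ), ha k⟩
      rw [Finset.sum_apply, Finset.sum_eq_single k] at h1
      · simpa [Pi.single_apply] using h1
      · intro l _ hl
        have hl' : (l : ℕ) ≠ k := fun h => hl (Fin.ext h)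
        have e1 : (2 * (k : ℕ)) ≠ 2 * (l : ℕ) := by omega
        have e2 : (2 * (k : ℕ)) ≠ 2 * (l : ℕ) + 1 := by omega
        simp [Pi.single_apply, e1, e2]
      · intro h
        exact absurd (Finset.mem_univ k) h
    · intro k l
      rw [dotProduct_add, add_dotProduct, add_dotProduct]
      simp only [single_dotProduct, dotProduct_single, Pi.single_apply, Fin.mk.injEq]
      by_cases h : (k : ℕ) = l
      · have e1 : ¬ (2 * (k : ℕ) = 2 * (l : ℕ) + 1) := by omega
        have e2 : ¬ (2 * (k : ℕ) + 1 = 2 * (l : ℕ)) := by omega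
        have e3 : ¬ (2 * (l : ℕ) = 2 * (k : ℕ) + 1) := by omega
        have e4 : ¬ (2 * (l : ℕ) + 1 = 2 * (k : ℕ)) := by omega
        simp [h, hi]
      · have e1 : ¬ (2 * (k : ℕ) = 2 * (l : ℕ) + 1) := by omega
        have e2 : ¬ (2 * (k : ℕ) + 1 = 2 * (l : ℕ)) := by omega
        have e3 : ¬ (2 * (l : ℕ) = 2 * (k : ℕ) + 1) := by omega
        have e4 : ¬ (2 * (l : ℕ) + 1 = 2 * (k : ℕ)) := by omega
        have h' : ¬ ((l : ℕ) = k) := fun h2 => h h2.symm
        simp [h, h', e1, e2, e3, e4]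

end Pool.Agent.MP_f4742e_al
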