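import Pool.Agent.Lib.MP_f4742e_al.Y.Base

/-!
Witt index one and `n ≥ 4`: two orthogonal idempotents and a square zero element.
-/

set_option autoImplicit false
set_option linter.unusedSimpArgs false

namespace Pool.Agent.MP_f4742e_al

open Matrix

variable {F : Type*} [Field F] [CharZero F] {n : ℕ}

/-- A subspace of dimension larger than the Witt index contains an anisotropic vector. -/
theorem exists_aniso_of_lt {w : ℕ} (hw : IsoMax n F w) (W : Submodule F (Fin n → F))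
    (hW : w < Module.finrank F W) : ∃ a ∈ W, a ⬝ᵥ a ≠ 0 := by
  by_contra hcon
  push Not at hcon
  have h1 : ∀ a ∈ W, ∀ b ∈ W, a ⬝ᵥ b = 0 := by
    intro a ha b hb
    have h2 := hcon (a + b) (W.add_mem ha hb)
    rw [dotProduct_add, add_dotProduct, add_dotProduct, hcon a ha, hcon b hb,
      dotProduct_comm b a, zero_add, add_zero, ← two_mul] at h2
    exact (mul_eq_zero.1 h2).resolve_left two_ne_zero
  have h3 := hw.2 (show Module.finrank F W ∈ {m : ℕ | ∃ v : Fin m → (Fin n → F),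
    LinearIndependent F v ∧ ∀ i j, v i ⬝ᵥ v j = 0} from by
    obtain ⟨b, hb⟩ : ∃ b, b = Module.finBasis F W := ⟨_, rfl⟩
    refine ⟨fun i => (b i : Fin n → F), ?_, fun i j => h1 _ (b i).2 _ (b j).2⟩
    exact b.linearIndependent.map' W.subtype (Submodule.ker_subtype W))
  omega

/-- The vectors orthogonal to two given vectors. -/
theorem exists_aniso_perp {w : ℕ} (hw : IsoMax n F w) (hn : w + 2 < n) (u v : Fin n → F) :
    ∃ a : Fin n → F, u ⬝ᵥ a = 0 ∧ v ⬝ᵥ a = 0 ∧ a ⬝ᵥ a ≠ 0 := by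
  have h1 := LinearMap.finrank_range_add_finrank_ker (Matrix.of ![u, v]).mulVecLin
  rw [Module.finrank_fin_fun] at h1
  have h2 : Module.finrank F (LinearMap.range (Matrix.of ![u, v]).mulVecLin) ≤ 2 := by
    refine (Submodule.finrank_le _).trans ?_
    rw [Module.finrank_fin_fun]
  obtain ⟨a, ha, ha'⟩ := exists_aniso_of_lt hw
    (LinearMap.ker (Matrix.of ![u, v]).mulVecLin) (by omega)
  rw [LinearMap.mem_ker, Matrix.mulVecLin_apply] at ha
  exact ⟨a, congrFun ha 0, congrFun ha 1, ha'⟩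

theorem exists_E (hw : IsoMax n F 1) (hn : 4 ≤ n) : ∃ p q e : Matrix (Fin n) (Fin n) F,
    pᵀ = p ∧ qᵀ = q ∧ eᵀ = e ∧ p ≠ 0 ∧ q ≠ 0 ∧ e ≠ 0 ∧ p * p = p ∧ q * q = q ∧ e * e = 0 ∧
    p * q = 0 ∧ e * p = 0 ∧ e * q = 0 := by
  obtain ⟨v', hv', h0⟩ := hw.1
  obtain ⟨v, hv⟩ : ∃ v, v = v' 0 := ⟨_, rfl⟩
  have hvn : v ≠ 0 := by
    rw [hv]
    exact hv'.ne_zero 0
  have hvv : v ⬝ᵥ v = 0 := by
    rw [hv]
    exact h0 0 0
  obtain ⟨a, hva, -, haa⟩ := exists_aniso_perp hw (by omega) v v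
  obtain ⟨b, hvb, hab, hbb⟩ := exists_aniso_perp hw (by omega) v a
  have hne : ∀ x : Fin n → F, x ≠ 0 → vecMulVec x x ≠ 0 := by
    intro x hx h
    apply hx
    ext i
    have h1 := congrFun (congrFun h i) i
    rw [vecMulVec_apply] at h1
    exact mul_self_eq_zero.1 h1
  have han : a ≠ 0 := by
    rintro rfl
    exact haa (dotProduct_zero _)
  have hbn : b ≠ 0 := by
    rintro rfl
    exact hbb (dotProduct_zero _)
  refine ⟨(a ⬝ᵥ a)⁻¹ • vecMulVec a a, (b ⬝ᵥ b)⁻¹ • vecMulVec b b, vecMulVec v v, ?_, ?_, ?_,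
    smul_ne_zero (inv_ne_zero haa) (hne a han), smul_ne_zero (inv_ne_zero hbb) (hne b hbn),
    hne v hvn, ?_, ?_, ?_, ?_, ?_, ?_⟩
  · rw [transpose_smul, transpose_vecMulVec]
  · rw [transpose_smul, transpose_vecMulVec]
  · rw [transpose_vecMulVec]
  · rw [Matrix.smul_mul, Matrix.mul_smul, mul_vecMulVec, vmv_mulVec, smul_vecMulVec, smul_smul,
      smul_smul, inv_mul_cancel_right₀ haa]
  · rw [Matrix.smul_mul, Matrix.mul_smul, mul_vecMulVec, vmv_mulVec, smul_vecMulVec, smul_smul,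
      smul_smul, inv_mul_cancel_right₀ hbb]
  · rw [mul_vecMulVec, vmv_mulVec, hvv, zero_smul, zero_vecMulVec]
  · rw [Matrix.smul_mul, Matrix.mul_smul, mul_vecMulVec, vmv_mulVec, hab, zero_smul,
      zero_vecMulVec, smul_zero, smul_zero]
  · rw [Matrix.mul_smul, mul_vecMulVec, vmv_mulVec, hva, zero_smul, zero_vecMulVec, smul_zero]
  · rw [Matrix.mul_smul, mul_vecMulVec, vmv_mulVec, hvb, zero_smul, zero_vecMulVec, smul_zero]

end Pool.Agent.MP_f4742e_al
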