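import Pool.Agent.Lib.MP_f4742e_al.Y.Base

/-!
No two orthogonal symmetric idempotents and a symmetric nilpotent element for `n = 3`, and none
over a field for which the dot product has no isotropic vector.
-/

set_option autoImplicit false

namespace Pool.Agent.MP_f4742e_al

open Matrix

variable {F : Type*} [Field F]

private theorem th_dot {n : ℕ} {p q : Matrix (Fin n) (Fin n) F} (hp : pᵀ = p) (hpq : p * q = 0)
    (x y : Fin n → F) : (p *ᵥ x) ⬝ᵥ (q *ᵥ y) = 0 := by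
  have h1 : (p *ᵥ x) ⬝ᵥ (q *ᵥ y) = x ⬝ᵥ ((p * q) *ᵥ y) := by
    rw [← Matrix.mulVec_mulVec, Matrix.dotProduct_mulVec x p, ← Matrix.mulVec_transpose, hp]
  rw [h1, hpq, Matrix.zero_mulVec, dotProduct_zero]

private theorem th_ex {n : ℕ} {p : Matrix (Fin n) (Fin n) F} (h : p ≠ 0) : ∃ x, p *ᵥ x ≠ 0 := by
  by_contra hc
  push Not at hc
  apply h
  ext i j
  have h1 := congrFun (hc (Pi.single j 1)) i
  rwa [Matrix.mulVec_single_one] at h1

private theorem th_aniso [CharZero F] {n : ℕ} {p : Matrix (Fin n) (Fin n) F} (hp : pᵀ = p)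
    (hpp : p * p = p) (h : p ≠ 0) : ∃ x, (p *ᵥ x) ⬝ᵥ (p *ᵥ x) ≠ 0 := by
  by_contra hc
  push Not at hc
  obtain ⟨x, hx⟩ := th_ex h
  have hsym : ∀ u v : Fin n → F, (p *ᵥ u) ⬝ᵥ (p *ᵥ v) = 0 := by
    intro u v
    have h1 := hc (u + v)
    rw [Matrix.mulVec_add, add_dotProduct, dotProduct_add, dotProduct_add, hc u, hc v,
      dotProduct_comm (p *ᵥ v) (p *ᵥ u)] at h1
    have h2 : (2 : F) * ((p *ᵥ u) ⬝ᵥ (p *ᵥ v)) = 0 := by linear_combination h1
    exact (mul_eq_zero.1 h2).resolve_left two_ne_zero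
  have h3 : ∀ u : Fin n → F, u ⬝ᵥ (p *ᵥ x) = 0 := by
    intro u
    have h4 := hsym u x
    have h5 : (p *ᵥ u) ⬝ᵥ (p *ᵥ x) = u ⬝ᵥ ((p * p) *ᵥ x) := by
      rw [← Matrix.mulVec_mulVec, Matrix.dotProduct_mulVec u p, ← Matrix.mulVec_transpose, hp]
    rw [h5, hpp] at h4
    exact h4
  apply hx
  ext i
  have h6 := h3 (Pi.single i 1)
  rwa [single_one_dotProduct] at h6

theorem not_E_three [CharZero F] : ¬ ∃ p q e : Matrix (Fin 3) (Fin 3) F, pᵀ = p ∧ qᵀ = q ∧
    eᵀ = e ∧ p ≠ 0 ∧ q ≠ 0 ∧ e ≠ 0 ∧ p * p = p ∧ q * q = q ∧ e * e = 0 ∧ p * q = 0 ∧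
    e * p = 0 ∧ e * q = 0 := by
  rintro ⟨p, q, e, hp, hq, he, p0, q0, e0, pp, qq, ee, pq, ep, eq⟩
  obtain ⟨x, hx⟩ := th_aniso hp pp p0
  obtain ⟨y, hy⟩ := th_aniso hq qq q0
  obtain ⟨z, hz⟩ := th_ex e0
  set a := p *ᵥ x with ha
  set b := q *ᵥ y with hb
  set w := e *ᵥ z with hw
  have hab : a ⬝ᵥ b = 0 := th_dot hp pq x y
  have hwa : w ⬝ᵥ a = 0 := th_dot he ep z x
  have hwb : w ⬝ᵥ b = 0 := th_dot he eq z y
  have hww : w ⬝ᵥ w = 0 := th_dot he ee z z
  have hba : b ⬝ᵥ a = 0 := by rw [dotProduct_comm]; exact hab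
  have haw : a ⬝ᵥ w = 0 := by rw [dotProduct_comm]; exact hwa
  have hbw : b ⬝ᵥ w = 0 := by rw [dotProduct_comm]; exact hwb
  have hli : LinearIndependent F ![a, b, w] := by
    rw [Fintype.linearIndependent_iff]
    intro g hg
    rw [Fin.sum_univ_three] at hg
    simp only [Matrix.cons_val_zero, Matrix.cons_val_one, Matrix.cons_val] at hg
    have h1 : g 0 = 0 := by
      have h2 := congrArg (fun v => a ⬝ᵥ v) hg
      simp only [dotProduct_add, dotProduct_smul, hab, haw, smul_eq_mul, mul_zero, add_zero,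
        dotProduct_zero] at h2
      exact (mul_eq_zero.1 h2).resolve_right hx
    have h2 : g 1 = 0 := by
      have h2 := congrArg (fun v => b ⬝ᵥ v) hg
      simp only [dotProduct_add, dotProduct_smul, hba, hbw, smul_eq_mul, mul_zero, add_zero,
        zero_add, dotProduct_zero] at h2
      exact (mul_eq_zero.1 h2).resolve_right hy
    have h3 : g 2 = 0 := by
      rw [h1, h2, zero_smul, zero_smul, zero_add, zero_add] at hg
      exact (smul_eq_zero.1 hg).resolve_right hz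
    intro i
    fin_cases i
    · exact h1
    · exact h2
    · exact h3
  have hsp : Submodule.span F (Set.range ![a, b, w]) = ⊤ :=
    hli.span_eq_top_of_card_eq_finrank (by simp)
  have hall : ∀ v : Fin 3 → F, w ⬝ᵥ v = 0 := by
    intro v
    have hv : v ∈ Submodule.span F (Set.range ![a, b, w]) := by rw [hsp]; trivial
    induction hv using Submodule.span_induction with
    | mem v hv =>
      obtain ⟨i, rfl⟩ := hv
      fin_cases i
      · exact hwa
      · exact hwb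
      · exact hww
    | zero => exact dotProduct_zero w
    | add u v _ _ hu hv => rw [dotProduct_add, hu, hv, add_zero]
    | smul c v _ hv => rw [dotProduct_smul, hv, smul_zero]
  apply hz
  ext i
  have h6 := hall (Pi.single i 1)
  rwa [dotProduct_single_one] at h6

theorem not_E_zero {n : ℕ} (hw : IsoMax n F 0) : ¬ ∃ p q e : Matrix (Fin n) (Fin n) F,
    pᵀ = p ∧ qᵀ = q ∧ eᵀ = e ∧ p ≠ 0 ∧ q ≠ 0 ∧ e ≠ 0 ∧ p * p = p ∧ q * q = q ∧ e * e = 0 ∧
    p * q = 0 ∧ e * p = 0 ∧ e * q = 0 := by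
  rintro ⟨p, q, e, hp, hq, he, p0, q0, e0, pp, qq, ee, pq, ep, eq⟩
  obtain ⟨z, hz⟩ := th_ex e0
  have h1 : 1 ≤ 0 := hw.2 ⟨fun _ => e *ᵥ z, by
    rw [Fintype.linearIndependent_iff]
    intro g hg i
    rw [Fin.sum_univ_one] at hg
    have h2 : g 0 = 0 := (smul_eq_zero.1 hg).resolve_right hz
    have h3 : i = 0 := Subsingleton.elim i 0
    rw [h3]
    exact h2, fun _ _ => th_dot he ee z z⟩
  omega

end Pool.Agent.MP_f4742e_al
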