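import Pool.Agent.Lib.MP_f4742e_al.Y.Base

/-!
The Witt index of the transposition.
-/

set_option autoImplicit false
set_option linter.unusedSimpArgs false

namespace Pool.Agent.MP_f4742e_al

open Matrix

variable {F : Type*} [Field F] {n : ℕ}

/-- The column space of a right ideal. -/
def colS (I : Submodule (Matrix (Fin n) (Fin n) F)ᵐᵒᵖ (Matrix (Fin n) (Fin n) F)) :
    Submodule F (Fin n → F) where
  carrier := {u | ∀ v : Fin n → F, vecMulVec u v ∈ I}
  add_mem' := by
    intro u u' hu hu' v
    rw [add_vecMulVec]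
    exact I.add_mem (hu v) (hu' v)
  zero_mem' := by
    intro v
    rw [zero_vecMulVec]
    exact I.zero_mem
  smul_mem' := by
    intro c u hu v
    rw [smul_vecMulVec, ← vecMulVec_smul]
    exact hu _

theorem mem_colS {I : Submodule (Matrix (Fin n) (Fin n) F)ᵐᵒᵖ (Matrix (Fin n) (Fin n) F)}
    {x : Matrix (Fin n) (Fin n) F} : x ∈ I ↔ ∀ v, x *ᵥ v ∈ colS I := by
  constructor
  · intro hx v v'
    rw [← mul_vecMulVec]
    exact mul_mem hx _
  · intro h
    have h1 : x = ∑ j, vecMulVec (x *ᵥ Pi.single j 1) (Pi.single j (1 : F)) := by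
      have h2 : (1 : Matrix (Fin n) (Fin n) F) =
          ∑ j, vecMulVec (Pi.single j (1 : F)) (Pi.single j (1 : F)) := by
        ext i k
        rw [Matrix.sum_apply, Finset.sum_eq_single i]
        · by_cases hik : i = k
          · subst hik
            simp [vecMulVec_apply]
          · rw [Matrix.one_apply_ne hik, vecMulVec_apply, Pi.single_eq_of_ne (Ne.symm hik),
              mul_zero]
        · intro j _ hj
          rw [vecMulVec_apply, Pi.single_eq_of_ne (Ne.symm hj), zero_mul]
        · intro hi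
          exact absurd (Finset.mem_univ i) hi
      conv_lhs => rw [← Matrix.mul_one x, h2, Matrix.mul_sum]
      simp only [mul_vecMulVec]
    rw [h1]
    exact Submodule.sum_mem _ fun j _ => h _ _

theorem colS_lt {I J : Submodule (Matrix (Fin n) (Fin n) F)ᵐᵒᵖ (Matrix (Fin n) (Fin n) F)}
    (h : I < J) : colS I < colS J := by
  refine lt_of_le_of_ne (fun u hu v => h.le (hu v)) fun he => ?_
  refine h.not_ge fun x hx => ?_
  rw [mem_colS, he, ← mem_colS]
  exact hx

theorem isoMax_of_witt {w : ℕ} (hw : (trI n F).IsWittIndex w) : IsoMax n F w := by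
  constructor
  · obtain ⟨I, hI, hiso⟩ := hw.1
    have h1 : ∀ k : ℕ, ∀ hk : k < w + 1, k ≤ Module.finrank F (colS (I ⟨k, hk⟩)) := by
      intro k
      induction k with
      | zero => intro _; exact Nat.zero_le _
      | succ k ih =>
        intro hk
        have h2 := ih (by omega)
        have h3 : I ⟨k, by omega⟩ < I ⟨k + 1, hk⟩ := hI (by
          rw [Fin.lt_def]
          exact Nat.lt_succ_self k)
        have h4 := Submodule.finrank_lt_finrank_of_lt (colS_lt h3)
        omega
    have h2 : w ≤ Module.finrank F (colS (I (Fin.last w))) := h1 w (Nat.lt_succ_self w)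
    have h3 : ∀ u ∈ colS (I (Fin.last w)), ∀ u' ∈ colS (I (Fin.last w)), u ⬝ᵥ u' = 0 := by
      intro u hu u' hu'
      rcases Nat.eq_zero_or_pos n with hn | hn
      · subst hn
        simp [dotProduct]
      · have h4 := hiso _ (hu (Pi.single ⟨0, hn⟩ 1)) _ (hu' (Pi.single ⟨0, hn⟩ 1))
        rw [trI_f, transpose_vecMulVec, vecMulVec_mul_vecMulVec] at h4
        have h5 := congrFun (congrFun h4 ⟨0, hn⟩) ⟨0, hn⟩
        simpa [vecMulVec_apply] using h5
    obtain ⟨b, hb⟩ : ∃ b, b = Module.finBasis F (colS (I (Fin.last w))) := ⟨_, rfl⟩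
    refine ⟨fun i => (b (Fin.castLE h2 i) : Fin n → F), ?_, fun i j => h3 _ (b _).2 _ (b _).2⟩
    have h4 : LinearIndependent F fun i => (b i : Fin n → F) :=
      b.linearIndependent.map' (colS (I (Fin.last w))).subtype (Submodule.ker_subtype _)
    exact h4.comp (Fin.castLE h2) (Fin.castLE_injective h2)
  · rintro l ⟨v, hv, h0⟩
    refine witt_le (G := 1) 1 (one_mul 1) (fun x => ?_) hw l v hv fun i j => ?_
    · rw [trI_f, one_mul, mul_one]
    · rw [one_mulVec]
      exact h0 i j

end Pool.Agent.MP_f4742e_al
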