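import Pool.Agent.Lib.MP_f4742e_al.Y.Bridge
import Pool.Agent.Lib.MP_f4742e_al.Y.Witt
import Pool.Agent.Lib.MP_f4742e_al.Y.One
import Pool.Agent.Lib.MP_f4742e_al.Y.Three
import Pool.Agent.Lib.MP_f4742e_al.Y.Half
import Pool.Agent.Lib.MP_f4742e_al.G.WFull

/-!
The RB-index of the Jordan algebra of the symmetric matrices over any field of characteristic
zero.
-/

set_option autoImplicit false

namespace Pool.Agent.MP_f4742e_al

open Matrix

theorem rb_HSym_any {F : Type*} [Field F] [CharZero F] {n : ℕ} (hn : 3 ≤ n) :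
    ∃ w, IsoMax n F w ∧
      HasRBIndex F (HSym n F) (if 2 ≤ w then 2 * w - 1 else if w = 1 ∧ 4 ≤ n then 3 else 2) := by
  have hne : Nonempty (Fin n) := ⟨⟨0, by omega⟩⟩
  obtain ⟨w, hw⟩ := exists_wittIndex (trI n F)
  have hm := isoMax_of_witt hw
  refine ⟨w, hm, ?_⟩
  obtain ⟨i0, hi0⟩ : ∃ i : Fin n, i = ⟨0, by omega⟩ := ⟨_, rfl⟩
  obtain ⟨i1, hi1⟩ : ∃ i : Fin n, i = ⟨1, by omega⟩ := ⟨_, rfl⟩
  have hi : i1 ≠ i0 := by
    rw [hi0, hi1]
    intro h
    have := Fin.mk.inj_iff.1 h
    omega
  have hp0 : (Matrix.single i0 i0 (1 : F)) ≠ 0 := by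
    intro h
    have h1 := congrFun (congrFun h i0) i0
    rw [Matrix.single_apply_same] at h1
    exact one_ne_zero h1
  by_cases h2 : 2 ≤ w
  · rw [if_pos h2]
    refine rb_HSym_of (split_exact hw h2 ⟨Matrix.single i0 i0 1, hp0, ?_, ?_⟩)
    · rw [trI_f, Matrix.transpose_single]
    · intro x
      refine ⟨x i0 i0, ?_⟩
      ext i j
      rw [Matrix.smul_apply, Matrix.single_mul_mul_single, smul_eq_mul]
      simp [Matrix.single_apply]
  · rw [if_neg h2]
    obtain ⟨r, hr, h3, h4, h5, h6, h7, h8⟩ := general_bounds_full hw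
    have hr2 : 2 ≤ r := by
      refine h5 ⟨Matrix.single i0 i0 1, ?_, ?_, hp0, ?_⟩
      · rw [trI_f, Matrix.transpose_single]
      · rw [Matrix.single_mul_single_same, mul_one]
      · intro h
        have h1 := congrFun (congrFun h i1) i1
        rw [Matrix.single_apply_of_ne _ _ _ _ _ (by simp [hi.symm]), Matrix.one_apply_eq] at h1
        exact one_ne_zero h1.symm
    by_cases hw1 : w = 1 ∧ 4 ≤ n
    · rw [if_pos hw1]
      obtain ⟨rfl, hn4⟩ := hw1
      have hE := h7 (exists_E hm hn4)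
      have h9 : r = 3 := by
        simp only [mul_one, Nat.reduceAdd] at h4
        omega
      rw [← h9]
      exact rb_HSym_of hr
    · rw [if_neg hw1]
      have h9 : r ≤ 2 := by
        refine h8 (by omega) ?_
        by_cases h0 : w = 0
        · rw [h0] at hm
          exact not_E_zero hm
        · have hn3 : n = 3 := by omega
          subst hn3
          exact not_E_three
      have h10 : r = 2 := by omega
      rw [← h10]
      exact rb_HSym_of hr

end Pool.Agent.MP_f4742e_al
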